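import Pool.Agent.W_MP_a18a27_co.Third

set_option autoImplicit false

open Finset

namespace Pool.Agent.W_MP_a18a27_co

theorem log_le_sum (K N n : ℕ) (hN : 1 ≤ N + K) (hn : N ≤ n) :
    Real.log ((n : ℝ) + K) - Real.log ((N : ℝ) + K) ≤ ∑ k ∈ Ico N n, 1 / ((k : ℝ) + K) := by
  induction n, hn using Nat.le_induction with
  | base => simp
  | succ n hn ih =>
    rw [sum_Ico_succ_top hn]
    have h0 : (0 : ℝ) < (n : ℝ) + K := by
      have : 1 ≤ n + K := by omega
      exact_mod_cast this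
    have h1 : Real.log (((n + 1 : ℕ) : ℝ) + K) - Real.log ((n : ℝ) + K) ≤ 1 / ((n : ℝ) + K) := by
      rw [← Real.log_div (by push_cast; positivity) h0.ne']
      refine (Real.log_le_sub_one_of_pos (by push_cast; positivity)).trans (le_of_eq ?_)
      push_cast
      field_simp
      ring
    linarith

/-- the growth statement: `limsup a_n / n^3 ≥ 1/3`. -/
theorem limsup_ge {a : ℕ → ℤ} (hm : StrictMono a) (h : IsB3 a) {c : ℝ} (hc : c < 1 / 3) (N : ℕ) :
    ∃ n : ℕ, N ≤ n ∧ c * ((n : ℝ) + 1) ^ 3 < (a n : ℝ) := by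
  by_contra hcon
  push Not at hcon
  -- shift to a positive sequence
  obtain ⟨K, hK⟩ : ∃ K, 0 < a K := by
    have hlin : ∀ n : ℕ, a 0 + n ≤ a n := by
      intro n
      induction n with
      | zero => simp
      | succ n ih =>
        have := hm (Nat.lt_succ_self n)
        push_cast
        have h2 : a n < a (n + 1) := this
        linarith
    refine ⟨(1 - a 0).toNat, ?_⟩
    have := hlin (1 - a 0).toNat
    omega
  set b : ℕ → ℤ := fun m => a (K + m) with hb
  have hbm : StrictMono b := fun x y hxy => hm (by omega)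
  have hbB : IsB3 b := by
    intro i j l i' j' l' h1 h2 h3 h4 hs
    have := h (K + i) (K + j) (K + l) (K + i') (K + j') (K + l') (by omega) (by omega) (by omega)
      (by omega) hs
    omega
  have hb0 : 0 < b 0 := by simpa [hb] using hK
  have hbpos : ∀ m, (0 : ℝ) < b m := fun m => by
    have : 0 < b m := hb0.trans_le (hbm.monotone (Nat.zero_le m))
    exact_mod_cast this
  have hup : ∀ m, N ≤ m → (b m : ℝ) ≤ c * ((m : ℝ) + (K + 1 : ℕ)) ^ 3 := by
    intro m hm'
    have := hcon (K + m) (by omega)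
    have e : (((K + m : ℕ) : ℝ) + 1) = (m : ℝ) + (K + 1 : ℕ) := by push_cast; ring
    rw [e] at this
    exact this
  set L := K + 1 with hL
  have hc0 : 0 < c := by
    have h1 := hup N le_rfl
    have h2 := hbpos N
    have h3 : (0 : ℝ) < ((N : ℝ) + (L : ℕ)) ^ 3 := by positivity
    by_contra hneg
    push Not at hneg
    nlinarith
  -- choose c < c' < 1/3
  obtain ⟨c', hc1, hc2⟩ := exists_between hc
  have hc'0 : 0 < c' := hc0.trans hc1
  -- for large m, m (m-1) / b m ≥ (1/c') / (m + L)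
  obtain ⟨N1, hN1, hN1'⟩ : ∃ N1 : ℕ, N ≤ N1 ∧ ∀ m : ℕ, N1 ≤ m →
      1 / c' * (1 / ((m : ℝ) + L)) ≤ ((m : ℝ) * (m - 1)) / b m := by
    obtain ⟨M, hM⟩ := exists_nat_gt ((2 * L + 1) * c' / (c' - c))
    refine ⟨max N (M + 1), le_max_left _ _, fun m hmm => ?_⟩
    have hmN : N ≤ m := (le_max_left _ _).trans hmm
    have hmM : M + 1 ≤ m := (le_max_right _ _).trans hmm
    have hmM' : (M : ℝ) + 1 ≤ m := by exact_mod_cast hmM
    have hM0 : (0 : ℝ) ≤ M := Nat.cast_nonneg M
    have hL0 : (0 : ℝ) < L := by rw [hL]; positivity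
    have hmL : (0 : ℝ) < (m : ℝ) + L := by linarith
    have h1 : c * ((m : ℝ) + L) ^ 2 ≤ c' * (m * (m - 1)) := by
      rw [div_lt_iff₀ (by linarith)] at hM
      have h2 : (2 * (L : ℝ) + 1) * c' ≤ ((m : ℝ) + L) * (c' - c) := by
        nlinarith
      nlinarith [mul_nonneg hc'0.le (sq_nonneg ((L : ℝ))), mul_pos hc'0 hL0]
    have h3 := hup m hmN
    have h4 := hbpos m
    rw [show 1 / c' * (1 / ((m : ℝ) + L)) = 1 / (c' * (m + L)) by field_simp,
      div_le_div_iff₀ (by positivity) h4]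
    calc 1 * (b m : ℝ) ≤ c * ((m : ℝ) + L) ^ 3 := by linarith
      _ = (c * ((m : ℝ) + L) ^ 2) * (m + L) := by ring
      _ ≤ (c' * (m * (m - 1))) * (m + L) := mul_le_mul_of_nonneg_right h1 hmL.le
      _ = _ := by ring
  -- compare
  have hmain : ∀ n : ℕ, N1 ≤ n →
      1 / c' * (Real.log ((n : ℝ) + L) - Real.log ((N1 : ℝ) + L)) ≤
        1 + Real.log (2 * c) + 3 * Real.log ((n : ℝ) + L) := by
    intro n hn
    have hL0 : (0 : ℝ) < L := by rw [hL]; positivity
    have hnL : (0 : ℝ) < (n : ℝ) + L := by positivity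
    have h1 := main_ineq hbm hbB hb0 n
    have h2 : ∑ k ∈ Ico N1 n, ((k : ℝ) * (k - 1)) / b k ≤
        ∑ k ∈ range (n + 1), ((k : ℝ) * (k - 1)) / b k := by
      refine sum_le_sum_of_subset_of_nonneg ?_ fun k _ _ => ?_
      · intro k hk
        rw [mem_Ico] at hk
        rw [mem_range]
        omega
      · refine div_nonneg ?_ (hbpos k).le
        rcases Nat.eq_zero_or_pos k with rfl | hk
        · simp
        · have : (1 : ℝ) ≤ k := by exact_mod_cast hk
          nlinarith
    have h3 : 1 / c' * ∑ k ∈ Ico N1 n, 1 / ((k : ℝ) + L) ≤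
        ∑ k ∈ Ico N1 n, ((k : ℝ) * (k - 1)) / b k := by
      rw [mul_sum]
      exact sum_le_sum fun k hk => hN1' k (mem_Ico.1 hk).1
    have h4 := log_le_sum L N1 n (by omega) hn
    have h5 : Real.log (2 * b n) ≤ Real.log (2 * c) + 3 * Real.log ((n : ℝ) + L) := by
      have : Real.log (2 * c * ((n : ℝ) + L) ^ 3) =
          Real.log (2 * c) + 3 * Real.log ((n : ℝ) + L) := by
        rw [Real.log_mul (by positivity) (by positivity), Real.log_pow]
        push_cast
        ring
      rw [← this]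
      refine Real.log_le_log (by linarith [hbpos n]) ?_
      have := hup n (hN1.trans hn)
      linarith
    have h6 : 1 / c' * (Real.log ((n : ℝ) + L) - Real.log ((N1 : ℝ) + L)) ≤
        1 / c' * ∑ k ∈ Ico N1 n, 1 / ((k : ℝ) + L) :=
      mul_le_mul_of_nonneg_left h4 (by positivity)
    linarith
  -- contradiction as n → ∞
  have hpos3 : 0 < 1 / c' - 3 := by
    rw [sub_pos, lt_div_iff₀ hc'0]
    linarith
  set R := (1 + Real.log (2 * c) + 1 / c' * Real.log ((N1 : ℝ) + L)) / (1 / c' - 3) with hR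
  have hbd : ∀ n : ℕ, N1 ≤ n → Real.log ((n : ℝ) + L) ≤ R := by
    intro n hn
    rw [hR, le_div_iff₀ hpos3]
    have := hmain n hn
    nlinarith
  have ht : Filter.Tendsto (fun n : ℕ => Real.log ((n : ℝ) + L)) Filter.atTop Filter.atTop :=
    Real.tendsto_log_atTop.comp
      (Filter.tendsto_atTop_add_const_right _ _ tendsto_natCast_atTop_atTop)
  obtain ⟨n, hn1, hn2⟩ := ((ht.eventually_gt_atTop R).and (Filter.eventually_ge_atTop N1)).exists
  exact absurd (hbd n hn2) (not_le.2 hn1)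

end Pool.Agent.W_MP_a18a27_co
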