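import Mathlib

set_option autoImplicit false

open Finset

namespace Pool.Agent.W_MP_a18a27_co

/-- `B_3`: three-term sums with sorted indices are distinct. -/
def IsB3 (a : ℕ → ℤ) : Prop :=
  ∀ i j l i' j' l' : ℕ, i ≤ j → j ≤ l → i' ≤ j' → j' ≤ l' →
    a i + a j + a l = a i' + a j' + a l' → i = i' ∧ j = j' ∧ l = l'

/-- indicator -/
def e (x y : ℕ) : ℕ := if x = y then 1 else 0

theorem e_self (x : ℕ) : e x x = 1 := by simp [e]
theorem e_ne {x y : ℕ} (h : x ≠ y) : e x y = 0 := by simp [e, h]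
theorem e_le (x y : ℕ) : e x y ≤ 1 := by unfold e; split_ifs <;> omega
theorem eq_of_e {x y : ℕ} (h : 1 ≤ e x y) : x = y := by
  unfold e at h; split_ifs at h with h1
  · exact h1
  · omega

theorem sort3 (a : ℕ → ℤ) (i j l : ℕ) : ∃ p q r : ℕ, p ≤ q ∧ q ≤ r ∧
    a i + a j + a l = a p + a q + a r ∧ ∀ x, e x i + e x j + e x l = e x p + e x q + e x r := by
  rcases le_total i j with h1 | h1 <;> rcases le_total j l with h2 | h2 <;>
    rcases le_total i l with h3 | h3
  · exact ⟨i, j, l, h1, h2, rfl, fun x => rfl⟩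
  · exact ⟨i, j, l, h1, h2, rfl, fun x => rfl⟩
  · exact ⟨i, l, j, h3, h2, by ring, fun x => by ring⟩
  · exact ⟨l, i, j, h3, h1, by ring, fun x => by ring⟩
  · exact ⟨j, i, l, h1, h3, by ring, fun x => by ring⟩
  · exact ⟨j, l, i, h2, h3, by ring, fun x => by ring⟩
  · exact ⟨l, j, i, h2, h1, by ring, fun x => by ring⟩
  · exact ⟨l, j, i, h2, h1, by ring, fun x => by ring⟩

theorem IsB3.count {a : ℕ → ℤ} (h : IsB3 a) {i j l i' j' l' : ℕ}
    (hs : a i + a j + a l = a i' + a j' + a l') (x : ℕ) :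
    e x i + e x j + e x l = e x i' + e x j' + e x l' := by
  obtain ⟨p, q, r, h1, h2, h3, h4⟩ := sort3 a i j l
  obtain ⟨p', q', r', h1', h2', h3', h4'⟩ := sort3 a i' j' l'
  obtain ⟨rfl, rfl, rfl⟩ := h p q r p' q' r' h1 h2 h1' h2' (by omega)
  rw [h4, h4']

/-- the signed sums `a_k + (a_j - a_i)` and `a_k - (a_j - a_i)`, `i < j < k`. -/
def f (a : ℕ → ℤ) (k j i : ℕ) (b : Bool) : ℤ := if b then a k + a j - a i else a k + a i - a j

theorem f_inj {a : ℕ → ℤ} (h : IsB3 a) {k j i k' j' i' : ℕ} {b b' : Bool}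
    (h1 : i < j) (h2 : j < k) (h1' : i' < j') (h2' : j' < k')
    (hf : f a k j i b = f a k' j' i' b') : k = k' ∧ j = j' ∧ i = i' ∧ b = b' := by
  have key : ∀ {k j i k' j' i' : ℕ}, i < j → j < k → i' < j' → j' < k' →
      (∀ x, e x k + e x j + e x i' = e x k' + e x j' + e x i) → k = k' ∧ j = j' ∧ i = i' := by
    intro k j i k' j' i' h1 h2 h1' h2' H
    have hi := H i
    rw [e_self, e_ne (show i ≠ k by omega), e_ne (show i ≠ j by omega)] at hi
    have hii : i = i' := eq_of_e (by omega)
    subst hii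
    have hk := H k
    rw [e_self, e_ne (show k ≠ j by omega), e_ne (show k ≠ i by omega)] at hk
    have hk' := H k'
    rw [e_self, e_ne (show k' ≠ j' by omega), e_ne (show k' ≠ i by omega)] at hk'
    have hj := H j
    rw [e_self, e_ne (show j ≠ k by omega), e_ne (show j ≠ i by omega)] at hj
    by_cases hkk : k = k'
    · subst hkk
      refine ⟨rfl, ?_, rfl⟩
      rw [e_ne (show j ≠ k by omega)] at hj
      exact eq_of_e (by omega)
    · exfalso
      rw [e_ne hkk] at hk
      have hkj' : k = j' := eq_of_e (by omega)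
      rw [e_ne (show k' ≠ k by omega)] at hk'
      have : k' = j := eq_of_e (by omega)
      omega
  have key2 : ∀ {k j i k' j' i' : ℕ}, i < j → j < k → i' < j' → j' < k' →
      (∀ x, e x k + e x j + e x j' = e x k' + e x i' + e x i) → False := by
    intro k j i k' j' i' h1 h2 h1' h2' H
    have hi := H i
    rw [e_self, e_ne (show i ≠ k by omega), e_ne (show i ≠ j by omega)] at hi
    have hij : i = j' := eq_of_e (by omega)
    subst hij
    have hi' := H i'
    rw [e_self, e_ne (show i' ≠ k by omega), e_ne (show i' ≠ j by omega),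
      e_ne (show i' ≠ i by omega)] at hi'
    omega
  cases b <;> cases b' <;> simp only [f, if_true, Bool.false_eq_true, if_false] at hf
  · -- a k + a i - a j = a k' + a i' - a j'
    have H := fun x => h.count (i := k) (j := i) (l := j') (i' := k') (j' := i') (l' := j)
      (by omega) x
    -- counts: k, i, j' = k', i', j
    have hj := H j
    rw [e_self, e_ne (show j ≠ k by omega), e_ne (show j ≠ i by omega)] at hj
    have hjj : j = j' := eq_of_e (by omega)
    subst hjj
    have hk := H k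
    rw [e_self, e_ne (show k ≠ i by omega), e_ne (show k ≠ j by omega)] at hk
    have hk' := H k'
    rw [e_self, e_ne (show k' ≠ i' by omega), e_ne (show k' ≠ j by omega)] at hk'
    have hkk : k = k' := by
      by_contra hne
      rw [e_ne hne] at hk
      have := eq_of_e (show 1 ≤ e k i' by omega)
      omega
    subst hkk
    have hi := H i
    rw [e_self, e_ne (show i ≠ k by omega), e_ne (show i ≠ j by omega)] at hi
    exact ⟨rfl, rfl, eq_of_e (by omega), rfl⟩
  · -- a k + a i - a j = a k' + a j' - a i'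
    have H := fun x => h.count (i := k') (j := j') (l := j) (i' := k) (j' := i) (l' := i')
      (by omega) x
    exact (key2 h1' h2' h1 h2 H).elim
  · have H := fun x => h.count (i := k) (j := j) (l := j') (i' := k') (j' := i') (l' := i)
      (by omega) x
    exact (key2 h1 h2 h1' h2' H).elim
  · have H := fun x => h.count (i := k) (j := j) (l := i') (i' := k') (j' := j') (l' := i)
      (by omega) x
    obtain ⟨r1, r2, r3⟩ := key h1 h2 h1' h2' H
    exact ⟨r1, r2, r3, rfl⟩

/-- the index set of all triples `i < j < k ≤ n` with a sign -/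
def T (n : ℕ) : Finset (Σ _ : ℕ, Σ _ : ℕ, ℕ × Bool) :=
  (range (n + 1)).sigma fun k => (range k).sigma fun j => range j ×ˢ (univ : Finset Bool)

theorem main_ineq {a : ℕ → ℤ} (hm : StrictMono a) (h : IsB3 a) (h0 : 0 < a 0) (n : ℕ) :
    ∑ k ∈ range (n + 1), ((k : ℝ) * (k - 1)) / a k ≤ 1 + Real.log (2 * a n) := by
  have hpos : ∀ k, 0 < a k := fun k => h0.trans_le (hm.monotone (Nat.zero_le k))
  set g : (Σ _ : ℕ, Σ _ : ℕ, ℕ × Bool) → ℕ := fun t => (f a t.1 t.2.1 t.2.2.1 t.2.2.2).toNat
    with hg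
  have hmem : ∀ t ∈ T n, t.2.2.1 < t.2.1 ∧ t.2.1 < t.1 ∧ t.1 ≤ n := by
    intro t ht
    simp only [T, mem_sigma, mem_range, mem_product, mem_univ, and_true] at ht
    omega
  have hfpos : ∀ t ∈ T n, 0 < f a t.1 t.2.1 t.2.2.1 t.2.2.2 ∧
      f a t.1 t.2.1 t.2.2.1 t.2.2.2 ≤ 2 * a n := by
    intro t ht
    obtain ⟨m1, m2, m3⟩ := hmem t ht
    have s1 := hm m1
    have s2 := hm m2
    have s3 : a t.1 ≤ a n := hm.monotone m3
    have s4 := hpos t.2.2.1
    have s5 := hpos t.2.1
    unfold f
    split_ifs <;> constructor <;> omega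
  have hinj : Set.InjOn g (T n) := by
    intro t ht t' ht' hgt
    obtain ⟨m1, m2, m3⟩ := hmem t ht
    obtain ⟨m1', m2', m3'⟩ := hmem t' ht'
    have e1 := (hfpos t ht).1
    have e2 := (hfpos t' ht').1
    have : f a t.1 t.2.1 t.2.2.1 t.2.2.2 = f a t'.1 t'.2.1 t'.2.2.1 t'.2.2.2 := by
      simp only [hg] at hgt
      omega
    obtain ⟨r1, r2, r3, r4⟩ := f_inj h m1 m2 m1' m2' this
    obtain ⟨k, j, i, b⟩ := t
    obtain ⟨k', j', i', b'⟩ := t'
    simp only at r1 r2 r3 r4
    subst r1 r2 r3 r4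
    rfl
  have hsub : (T n).image g ⊆ Icc 1 (2 * a n).toNat := by
    intro s hs
    obtain ⟨t, ht, rfl⟩ := mem_image.1 hs
    have := hfpos t ht
    rw [mem_Icc]
    simp only [hg]
    omega
  have hsum : ∑ t ∈ T n, (1 : ℝ) / g t ≤ 1 + Real.log (2 * a n) := by
    have e1 : ∑ t ∈ T n, (1 : ℝ) / g t = ∑ s ∈ (T n).image g, (1 : ℝ) / s := by
      rw [sum_image hinj]
    rw [e1]
    refine (sum_le_sum_of_subset_of_nonneg hsub fun s _ _ => by positivity).trans ?_
    have h1 := harmonic_le_one_add_log (2 * a n).toNat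
    rw [harmonic_eq_sum_Icc] at h1
    push_cast at h1
    have e2 : (((2 * a n).toNat : ℕ) : ℝ) = 2 * (a n : ℝ) := by
      have : (((2 * a n).toNat : ℤ)) = 2 * a n := Int.toNat_of_nonneg (by linarith [hpos n])
      have h2 : ((((2 * a n).toNat : ℤ)) : ℝ) = ((2 * a n : ℤ) : ℝ) := by rw [this]
      push_cast at h2
      exact h2
    rw [e2] at h1
    simpa [one_div] using h1
  refine le_trans ?_ hsum
  rw [T, sum_sigma]
  refine sum_le_sum fun k hk => ?_
  rw [sum_sigma]
  have hk0 : (0 : ℝ) < a k := by exact_mod_cast hpos k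
  have hin : ∀ j ∈ range k, (j : ℝ) * (2 / a k) ≤
      ∑ ib ∈ range j ×ˢ (univ : Finset Bool), (1 : ℝ) / g ⟨k, ⟨j, ib⟩⟩ := by
    intro j hj
    rw [sum_product]
    have : ∀ i ∈ range j, 2 / (a k : ℝ) ≤ ∑ b : Bool, (1 : ℝ) / g ⟨k, ⟨j, (i, b)⟩⟩ := by
      intro i hi
      rw [Fintype.sum_bool]
      have hij : a i < a j := hm (mem_range.1 hi)
      have hjk : a j < a k := hm (mem_range.1 hj)
      have hi0 := hpos i
      have c1 : ((g ⟨k, ⟨j, (i, true)⟩⟩ : ℕ) : ℝ) = (a k : ℝ) + (a j - a i) := by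
        have : ((g ⟨k, ⟨j, (i, true)⟩⟩ : ℕ) : ℤ) = a k + (a j - a i) := by
          simp only [hg, f, if_true]
          omega
        exact_mod_cast this
      have c2 : ((g ⟨k, ⟨j, (i, false)⟩⟩ : ℕ) : ℝ) = (a k : ℝ) - (a j - a i) := by
        have : ((g ⟨k, ⟨j, (i, false)⟩⟩ : ℕ) : ℤ) = a k - (a j - a i) := by
          simp only [hg, f, Bool.false_eq_true, if_false]
          omega
        exact_mod_cast this
      rw [c1, c2]
      have hu0 : (0 : ℝ) < (a j : ℝ) - a i := by
        have : (a i : ℝ) < a j := by exact_mod_cast hij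
        linarith
      have hu1 : (a j : ℝ) - a i < a k := by
        have : (a j : ℝ) < a k := by exact_mod_cast hjk
        have : (0 : ℝ) < a i := by exact_mod_cast hi0
        linarith
      rw [div_add_div _ _ (by linarith) (by linarith), div_le_div_iff₀ hk0
        (mul_pos (by linarith) (by linarith))]
      nlinarith [mul_pos hu0 hu0]
    calc (j : ℝ) * (2 / a k) = ∑ i ∈ range j, 2 / (a k : ℝ) := by
          rw [sum_const, card_range, nsmul_eq_mul]
      _ ≤ _ := sum_le_sum this
  calc ((k : ℝ) * (k - 1)) / a k = ∑ j ∈ range k, (j : ℝ) * (2 / a k) := by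
        rw [← sum_mul]
        have : (∑ j ∈ range k, (j : ℝ)) * 2 = k * (k - 1) := by
          induction k with
          | zero => simp
          | succ m ih =>
            clear hin hk hk0
            have ih' : (∑ j ∈ range m, (j : ℝ)) * 2 = m * (m - 1) := by
              clear ih
              induction m with
              | zero => simp
              | succ m ih => rw [sum_range_succ, add_mul, ih]; push_cast; ring
            rw [sum_range_succ, add_mul, ih']; push_cast; ring
        rw [← this]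
        field_simp
    _ ≤ _ := sum_le_sum hin

end Pool.Agent.W_MP_a18a27_co
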